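import Mathlib
import Pool.Agent.R691.PN.Least

/-!
# MP_20903f_al: Sylow normalisers, c-embedding inside `P`, and `p`-nilpotence

For every odd prime `p`, every finite group `G` and every Sylow `p`-subgroup `P` of `G`, the group
`G` is `p`-nilpotent if and only if `N_G(P)` is `p`-nilpotent and, for every `x` outside `N_G(P)`,
each subgroup of order `p` of `G^{U_p} ∩ P ∩ P^x` is c-embedded in `P` with respect to `P`.
This answers Q1 positively.
-/

set_option autoImplicit false

namespace Pool.Agent.Results.MP_20903f_al.SylowNormalizerCEmbedded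

open Subgroup

/-- `G` is `p`-nilpotent: it has a normal Hall `p'`-subgroup `N`, that is, `p` does not divide the
order of `N` and the index of `N` is a power of `p`. -/
def PNilpotent (p : ℕ) (G : Type*) [Group G] : Prop :=
  ∃ N : Subgroup G, N.Normal ∧ ¬ p ∣ Nat.card N ∧ ∃ k : ℕ, N.index = p ^ k

/-- `L/K` is a chief factor of `G`: `K < L` are normal subgroups of `G` and no normal subgroup of
`G` lies strictly between them. -/
def IsChiefFactor {G : Type*} [Group G] (K L : Subgroup G) : Prop :=
  K.Normal ∧ L.Normal ∧ K < L ∧ ∀ M : Subgroup G, M.Normal → K ≤ M → M ≤ L → M = K ∨ M = L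

/-- `G` is `p`-solvable: each chief factor is a `p`-group or a `p'`-group. -/
def PSolvable (p : ℕ) (G : Type*) [Group G] : Prop :=
  ∀ K L : Subgroup G, IsChiefFactor K L → (∃ k : ℕ, K.relIndex L = p ^ k) ∨ ¬ p ∣ K.relIndex L

/-- `G` is `p`-supersolvable: it is `p`-solvable and each chief factor of `G` that is a `p`-group
has order `p`. -/
def PSupersolvable (p : ℕ) (G : Type*) [Group G] : Prop :=
  PSolvable p G ∧ ∀ K L : Subgroup G, IsChiefFactor K L → (∃ k : ℕ, K.relIndex L = p ^ k) →
    K.relIndex L = p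

/-- `G^{U_p}`: the intersection of all normal subgroups `N` of `G` with `G/N` `p`-supersolvable.
It is the smallest such normal subgroup, see `isLeast_resU`. -/
def resU (p : ℕ) (G : Type*) [Group G] : Subgroup G :=
  sInf {N : Subgroup G | ∃ _ : N.Normal, PSupersolvable p (G ⧸ N)}

/-- For subgroups `H` and `K` of `A`: `H` is c-embedded in `A` with respect to `K` if some
`B ≤ A` has `A = HB` and `H ∩ B ≤ Z(K)`. -/
def CEmbedded {A : Type*} [Group A] (H K : Subgroup A) : Prop :=
  ∃ B : Subgroup A, (∀ a : A, ∃ h ∈ H, ∃ b ∈ B, a = h * b) ∧ H ⊓ B ≤ (center K).map K.subtype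

/-- The group `G^{U_p}` is the smallest normal subgroup of `G` with `p`-supersolvable quotient. -/
theorem isLeast_resU {p : ℕ} [Fact p.Prime] {G : Type*} [Group G] [Finite G] :
    IsLeast {N : Subgroup G | ∃ _ : N.Normal, PSupersolvable p (G ⧸ N)} (resU p G) :=
  Pool.Agent.R691.PN.isLeast_residual

/-- **Main theorem.** Let `p` be an odd prime, `G` a finite group, `P` a Sylow `p`-subgroup. Then
`G` is `p`-nilpotent if and only if `N_G(P)` is `p`-nilpotent and for each `x` not in `N_G(P)`,
each subgroup `H` of order `p` of `G^{U_p} ∩ P ∩ x⁻¹Px` is c-embedded in `P` with respect to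
`P`. -/
theorem result (p : ℕ) [hp : Fact p.Prime] (hp2 : p ≠ 2) (G : Type*) [Group G] [Finite G]
    (P : Sylow p G) :
    PNilpotent p G ↔
      PNilpotent p (normalizer ((P : Subgroup G) : Set G)) ∧
        ∀ x : G, x ∉ normalizer ((P : Subgroup G) : Set G) →
          ∀ H : Subgroup G, Nat.card H = p →
            H ≤ resU p G ⊓ (P : Subgroup G) ⊓ (P : Subgroup G).map (MulAut.conj x⁻¹).toMonoidHom →
            CEmbedded (H.subgroupOf (P : Subgroup G)) (⊤ : Subgroup (P : Subgroup G)) := by
  constructor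
  · intro h
    refine ⟨Pool.Agent.R691.PN.PNilp.sub h, ?_⟩
    intro x _ H hH hle
    exfalso
    have h1 : resU p G ≤ ⊥ := by
      apply sInf_le
      refine ⟨inferInstance, ?_⟩
      apply Pool.Agent.R691.PN.psup_of_pnilp
      exact Pool.Agent.R691.PN.PNilp.of_injective
        (QuotientGroup.quotientBot (G := G)).toMonoidHom
        (QuotientGroup.quotientBot (G := G)).injective h
    have h2 : H = ⊥ := by
      rw [eq_bot_iff]
      exact (hle.trans (inf_le_left.trans inf_le_left)).trans h1
    rw [h2, card_bot] at hH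
    exact hp.out.one_lt.ne hH
  · rintro ⟨h1, h2⟩
    have hC : ∀ g ∈ normalizer ((P : Subgroup G) : Set G), ¬ p ∣ orderOf g →
        ∀ x ∈ P, g * x = x * g := by
      intro g hg hgp x hx
      have hPN : IsPGroup p ((P : Subgroup G).subgroupOf (normalizer ((P : Subgroup G) : Set G))) :=
        P.isPGroup'.comap_subtype
      have h3 := Pool.Agent.R691.PN.PNilp.comm h1 hPN (g := ⟨g, hg⟩) (by
        apply Pool.Agent.R691.PN.mem_normalizer_of_conj_le
        intro s hs
        exact (mem_normalizer_iff.1 hg s).1 hs) (by rwa [← Subgroup.orderOf_coe])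
        (x := ⟨x, le_normalizer hx⟩) hx
      exact congrArg Subtype.val h3
    apply Pool.Agent.R691.PN.thmA hp2 _ G rfl P hC
    intro x hx y hy1 hy2 hy3 hy4
    have hyU : y ∈ resU p G := by
      rw [resU, mem_sInf]
      rintro N ⟨hN, hNs⟩
      rw [Pool.Agent.R691.PN.resN, mem_sInf] at hy1
      exact hy1 N ⟨hN, Pool.Agent.R691.PN.pnilp_of_psup P hC N hNs⟩
    obtain ⟨B, hB1, hB2⟩ := h2 x hx (zpowers y) (by rw [Nat.card_zpowers, hy4]) (by
      rw [zpowers_le]
      refine ⟨⟨hyU, hy2⟩, x * y * x⁻¹, hy3, ?_⟩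
      simp only [MulEquiv.coe_toMonoidHom, MulAut.conj_apply]
      group)
    by_cases hyB : (⟨y, hy2⟩ : (P : Subgroup G)) ∈ B
    · left
      have h3 : (⟨y, hy2⟩ : (P : Subgroup G)) ∈
          (center (⊤ : Subgroup (P : Subgroup G))).map (⊤ : Subgroup (P : Subgroup G)).subtype := by
        apply hB2
        exact ⟨mem_zpowers y, hyB⟩
      obtain ⟨c, hc1, hc2⟩ := h3
      intro z hz
      have h4 := mem_center_iff.1 hc1 ⟨⟨z, hz⟩, mem_top _⟩
      have h5 := congrArg (fun w : (⊤ : Subgroup (P : Subgroup G)) => ((w : (P : Subgroup G)) : G)) h4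
      have h6 : ((c : (P : Subgroup G)) : G) = y := congrArg Subtype.val hc2
      simp only [coe_mul] at h5
      rw [h6] at h5
      exact h5
    · right
      refine ⟨B.map (P : Subgroup G).subtype, map_subtype_le B, ?_, ?_⟩
      · rintro ⟨b, hb, hb2⟩
        apply hyB
        have : b = ⟨y, hy2⟩ := Subtype.ext hb2
        rwa [← this]
      · intro z hz
        obtain ⟨h, hh, b, hb, hhb⟩ := hB1 ⟨z, hz⟩
        have h4 : ((h : (P : Subgroup G)) : G)⁻¹ ∈ zpowers y := inv_mem hh
        rw [← mem_powers_iff_mem_zpowers] at h4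
        obtain ⟨k, hk⟩ := h4
        refine ⟨k, b, hb, ?_⟩
        have h5 : (h : G) * (b : G) = z := (congrArg Subtype.val hhb).symm
        simp only at hk
        rw [hk, ← h5, inv_mul_cancel_left]
        rfl

end Pool.Agent.Results.MP_20903f_al.SylowNormalizerCEmbedded
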